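import Mathlib
import Pool.Agent.R440.WZ

/-!
# Sign and integrality of the normalised (20k+3) quartic binomial sum

A WZ pair gives the closed form
`∑_{k<n} (20k+3) (4k)!/k!⁴ (-1024)^(n-1-k) = 2n (2n+1) C(2n,n) ∑_{k<n} (-1)^k t(n,k)`,
`t(n,k) = 16^(k+1) C(2m,m) (k+1)! (4n)! / (128 (2k+2)! (2n-k-1)! (2n+1)!)`, `m = n-k-1`,
and `t(n,k)` is an integer for `n ≥ 2` by Legendre's formula.  The sign comes from the
alternating decreasing summands.
-/

set_option autoImplicit false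

namespace Pool.Agent.Results.MP_f65ae4_nt.SignIntegrality

open Finset Nat Pool.Agent.R440

/-- the summands of the transformed sum -/
noncomputable def T (n k : ℕ) : ℚ :=
  (-1) ^ k * n * 16 ^ k * ((4 * n)! : ℚ) * cb ((n : ℤ) - k - 1) * ((k + 1)! : ℚ) *
    rf (2 * (n : ℤ) - k - 1) / (4 * (n ! : ℚ) ^ 2 * ((2 * k + 2)! : ℚ))

/-- the certificate -/
noncomputable def R (n k : ℕ) : ℚ :=
  - (-1) ^ k * 16 ^ k * ((20 * n + 3) * (2 * n + 1) - (32 * n + 10) * k + 8 * k ^ 2) *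
    ((4 * n)! : ℚ) * cb ((n : ℤ) - k) * (k ! : ℚ) * rf (2 * (n : ℤ) - k + 1) /
    ((n ! : ℚ) ^ 2 * ((2 * k)! : ℚ))

theorem wz (n k : ℕ) : T (n + 1) k - (-1024) * T n k = R n (k + 1) - R n k := by
  unfold T R
  have e1 : cb (((n + 1 : ℕ) : ℤ) - k - 1) = cb ((n : ℤ) - k) := by
    congr 1; push_cast; ring
  have e2 : cb ((n : ℤ) - (k + 1 : ℕ)) = cb ((n : ℤ) - k - 1) := by
    congr 1; push_cast; ring
  have e3 : ((n : ℚ) - k) * cb ((n : ℤ) - k) = 2 * (2 * ((n : ℚ) - k) - 1) * cb ((n : ℤ) - k - 1) := by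
    have := cb_step ((n : ℤ) - k - 1)
    rw [show (n : ℤ) - k - 1 + 1 = (n : ℤ) - k by ring] at this
    push_cast at this
    linear_combination this
  have g1 : rf (2 * ((n + 1 : ℕ) : ℤ) - k - 1) = rf (2 * (n : ℤ) - k + 1) := by
    congr 1; push_cast; ring
  have g2 : rf (2 * (n : ℤ) - (k + 1 : ℕ) + 1) = (2 * (n : ℚ) - k + 1) * rf (2 * (n : ℤ) - k + 1) := by
    rw [show 2 * (n : ℤ) - (k + 1 : ℕ) + 1 = 2 * (n : ℤ) - k by push_cast; ring, rf_step]
    push_cast; ring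
  have g3 : rf (2 * (n : ℤ) - k - 1)
      = (2 * (n : ℚ) - k) * (2 * (n : ℚ) - k + 1) * rf (2 * (n : ℤ) - k + 1) := by
    rw [rf_step, show 2 * (n : ℤ) - k - 1 + 1 = 2 * (n : ℤ) - k by ring, rf_step (2 * (n : ℤ) - k)]
    push_cast; ring
  have f1 : ((2 * k + 2)! : ℚ) = (2 * k + 2) * (2 * k + 1) * ((2 * k)! : ℚ) := by
    rw [show 2 * k + 2 = 2 * k + 1 + 1 by ring, Nat.factorial_succ, Nat.factorial_succ]
    push_cast; ring
  have f2 : ((2 * (k + 1))! : ℚ) = (2 * k + 2) * (2 * k + 1) * ((2 * k)! : ℚ) := by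
    rw [show 2 * (k + 1) = 2 * k + 1 + 1 by ring, Nat.factorial_succ, Nat.factorial_succ]
    push_cast; ring
  have f3 : ((4 * (n + 1))! : ℚ) = (4 * n + 4) * (4 * n + 3) * (4 * n + 2) * (4 * n + 1) * ((4 * n)! : ℚ) := by
    rw [show 4 * (n + 1) = 4 * n + 1 + 1 + 1 + 1 by ring, Nat.factorial_succ, Nat.factorial_succ,
      Nat.factorial_succ, Nat.factorial_succ]
    push_cast; ring
  have f4 : ((n + 1)! : ℚ) = (n + 1) * (n ! : ℚ) := by
    rw [Nat.factorial_succ]; push_cast; ring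
  have f5 : ((k + 1)! : ℚ) = (k + 1) * (k ! : ℚ) := by
    rw [Nat.factorial_succ]; push_cast; ring
  rw [e1, e2, g1, g2, g3, f1, f2, f3, f4, f5]
  have z1 : (n ! : ℚ) ≠ 0 := by positivity
  have z2 : (k ! : ℚ) ≠ 0 := by positivity
  have z3 : ((2 * k)! : ℚ) ≠ 0 := by positivity
  have z4 : ((n : ℚ) + 1) ≠ 0 := by positivity
  have z5 : ((k : ℚ) + 1) ≠ 0 := by positivity
  have z6 : (2 * (k : ℚ) + 1) ≠ 0 := by positivity
  push_cast
  rw [pow_succ (-1 : ℚ) k, pow_succ (16 : ℚ) k]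
  field_simp
  linear_combination (32 * (2 * (n : ℚ) - k + 1) * (4 * n - 4 * k - 1) *
    rf (2 * (n : ℤ) - k + 1)) * e3

theorem floor_int (q a b x y : ℤ) (hq : 2 ≤ q) (hx0 : 0 ≤ x) (hx : x < q) (hy0 : 0 ≤ y)
    (hy : y < q) :
    ((q * a + x) - (q * b + y) - 1) / q + ((q * a + x) - (q * b + y) - 1) / q
      + (2 * (q * b + y) + 2) / q + (2 * (q * a + x) - (q * b + y) - 1) / q
      + (2 * (q * a + x) + 1) / q
    ≤ (2 * ((q * a + x) - (q * b + y) - 1)) / q + ((q * b + y) + 1) / q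
      + (4 * (q * a + x)) / q := by
  have h0 : q ≠ 0 := by omega
  have hq0 : 0 < q := by omega
  rw [show 2 * (q * a + x) + 1 = (2 * x + 1) + q * (2 * a) by ring,
    show 2 * ((q * a + x) - (q * b + y) - 1) = (2 * (x - y - 1)) + q * (2 * a - 2 * b) by ring,
    show 2 * (q * a + x) - (q * b + y) - 1 = (2 * x - y - 1) + q * (2 * a - b) by ring,
    show (q * a + x) - (q * b + y) - 1 = (x - y - 1) + q * (a - b) by ring,
    show 2 * (q * b + y) + 2 = (2 * y + 2) + q * (2 * b) by ring,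
    show (q * b + y) + 1 = (y + 1) + q * b by ring,
    show 4 * (q * a + x) = 4 * x + q * (4 * a) by ring]
  simp only [Int.add_mul_ediv_left _ _ h0]
  obtain ⟨l1, u1, c1, d1⟩ := fl_spec (2 * x + 1) q 0 1 hq0 (by linarith) (by linarith)
  obtain ⟨l2, u2, c2, d2⟩ := fl_spec (x - y - 1) q (-1) 0 hq0 (by linarith) (by linarith)
  obtain ⟨l3, u3, c3, d3⟩ := fl_spec (2 * x - y - 1) q (-1) 1 hq0 (by linarith) (by linarith)
  obtain ⟨l4, u4, c4, d4⟩ := fl_spec (2 * y + 2) q 0 2 hq0 (by linarith) (by linarith)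
  obtain ⟨l5, u5, c5, d5⟩ := fl_spec (y + 1) q 0 1 hq0 (by linarith) (by linarith)
  obtain ⟨l6, u6, c6, d6⟩ := fl_spec (4 * x) q 0 3 hq0 (by linarith) (by linarith)
  obtain ⟨l7, u7, c7, d7⟩ := fl_spec (2 * (x - y - 1)) q (-2) 1 hq0 (by linarith) (by linarith)
  generalize (2 * x + 1) / q = A at *
  generalize (x - y - 1) / q = B at *
  generalize (2 * x - y - 1) / q = C at *
  generalize (2 * y + 2) / q = D at *
  generalize (y + 1) / q = E at *
  generalize (4 * x) / q = F at *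
  generalize (2 * (x - y - 1)) / q = G at *
  interval_cases A <;> interval_cases B <;> interval_cases C <;> (try omega) <;>
    interval_cases D <;> (try omega) <;>
    interval_cases E <;> (try omega) <;> interval_cases F <;> (try omega) <;>
    interval_cases G <;> omega

/-- Legendre criterion. -/
theorem dvd_one (n k m : ℕ) (hm : n = k + 1 + m) :
    m ! * m ! * (2 * k + 2)! * (2 * n - k - 1)! * (2 * n + 1)! ∣
      (2 * m)! * (k + 1)! * (4 * n)! := by
  have h := prod_fac_dvd [2 * m, k + 1, 4 * n] [m, m, 2 * k + 2, 2 * n - k - 1, 2 * n + 1] (by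
    intro q hq
    have h := floor_int q (n / q : ℕ) (k / q : ℕ) (n % q : ℕ) (k % q : ℕ) (by exact_mod_cast hq)
      (by positivity) (by exact_mod_cast Nat.mod_lt _ (by omega)) (by positivity)
      (by exact_mod_cast Nat.mod_lt _ (by omega))
    have hn : ((q : ℤ) * (n / q : ℕ) + (n % q : ℕ)) = n := by exact_mod_cast Nat.div_add_mod n q
    have hkk : ((q : ℤ) * (k / q : ℕ) + (k % q : ℕ)) = k := by exact_mod_cast Nat.div_add_mod k q
    rw [hn, hkk] at h
    have e : ((n : ℤ) - k - 1) = (m : ℤ) := by omega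
    have e' : (2 * (n : ℤ) - k - 1) = ((2 * n - k - 1 : ℕ) : ℤ) := by omega
    rw [e, e'] at h
    have h' : m / q + m / q + (2 * k + 2) / q + (2 * n - k - 1) / q + (2 * n + 1) / q ≤
        2 * m / q + (k + 1) / q + (4 * n) / q := by exact_mod_cast h
    simp only [List.map_cons, List.map_nil, List.sum_cons, List.sum_nil]
    omega)
  simp only [List.map_cons, List.map_nil, List.prod_cons, List.prod_nil, mul_one] at h
  convert h using 1 <;> ring

/-- the 2-adic valuation for `k = 0` -/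
theorem v2_gain (n : ℕ) (hn : 2 ≤ n) :
    ((n - 1)! * (n - 1)! * (2 * 0 + 2)! * (2 * n - 0 - 1)! * (2 * n + 1)!).factorization 2 + 3
      ≤ ((2 * (n - 1))! * (0 + 1)! * (4 * n)!).factorization 2 := by
  obtain ⟨m, rfl⟩ : ∃ m, n = m + 1 := ⟨n - 1, by omega⟩
  have h2 := v2_lt (m := m) (by omega)
  have hm1 : ((m + 1)!).factorization 2 = (m + 1).factorization 2 + (m !).factorization 2 := by
    rw [Nat.factorial_succ, Nat.factorization_mul (by omega) (Nat.factorial_ne_zero _),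
      Finsupp.add_apply]
  have h22 : ((2 * 0 + 2)!).factorization 2 = 1 := by
    rw [show 2 * 0 + 2 = 2 * 1 by ring, v2_even]; simp
  have h11 : ((0 + 1)!).factorization 2 = 0 := by simp
  rw [Nat.factorization_mul (by positivity) (Nat.factorial_ne_zero _),
    Nat.factorization_mul (by positivity) (Nat.factorial_ne_zero _),
    Nat.factorization_mul (by positivity) (Nat.factorial_ne_zero _),
    Nat.factorization_mul (by positivity) (Nat.factorial_ne_zero _),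
    Nat.factorization_mul (by positivity) (Nat.factorial_ne_zero _),
    Nat.factorization_mul (Nat.factorial_ne_zero _) (Nat.factorial_ne_zero _),
    Finsupp.add_apply, Finsupp.add_apply, Finsupp.add_apply, Finsupp.add_apply,
    Finsupp.add_apply, Finsupp.add_apply, v2_odd, h22, h11,
    show 2 * (m + 1) - 0 - 1 = 2 * m + 1 by omega, v2_odd, Nat.add_sub_cancel, v2_even,
    show 4 * (m + 1) = 2 * (2 * (m + 1)) by ring, v2_even, v2_even, hm1]
  omega

/-- integrality of `t(n,k)` -/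
theorem dvd_two (n k m : ℕ) (hn : 2 ≤ n) (hm : n = k + 1 + m) :
    ∃ t : ℕ, 16 ^ (k + 1) * ((2 * m)! * (k + 1)! * (4 * n)!)
      = 128 * (m ! * m ! * (2 * k + 2)! * (2 * n - k - 1)! * (2 * n + 1)!) * t := by
  obtain ⟨A, hT⟩ := dvd_one n k m hm
  rcases Nat.eq_zero_or_pos k with hk | hk
  · subst hk
    have hm' : m = n - 1 := by omega
    subst hm'
    have hD : (n - 1)! * (n - 1)! * (2 * 0 + 2)! * (2 * n - 0 - 1)! * (2 * n + 1)! ≠ 0 := by
      positivity
    have hT0 : A ≠ 0 := by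
      rintro rfl
      rw [mul_zero] at hT
      have : (2 * (n - 1))! * (0 + 1)! * (4 * n)! ≠ 0 := by positivity
      exact this hT
    have h := v2_gain n hn
    rw [hT, Nat.factorization_mul hD hT0, Finsupp.add_apply] at h
    have h2 : 2 ^ 3 ∣ A := (Nat.prime_two.pow_dvd_iff_le_factorization hT0).mpr (by omega)
    obtain ⟨t, rfl⟩ := h2
    exact ⟨t, by rw [hT]; ring⟩
  · obtain ⟨j, rfl⟩ : ∃ j, k = j + 1 := ⟨k - 1, by omega⟩
    refine ⟨2 * 16 ^ j * A, ?_⟩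
    rw [hT]
    ring

theorem T_eq (n k m t : ℕ) (hm : n = k + 1 + m)
    (ht : 16 ^ (k + 1) * ((2 * m)! * (k + 1)! * (4 * n)!)
      = 128 * (m ! * m ! * (2 * k + 2)! * (2 * n - k - 1)! * (2 * n + 1)!) * t) :
    T n k = (2 * (n : ℚ) * (2 * n + 1) * ((2 * n).choose n : ℚ)) * ((-1) ^ k * t) := by
  have h1 : cb ((n : ℤ) - k - 1) = ((2 * m)! : ℚ) / ((m ! : ℚ) * (m ! : ℚ)) := by
    rw [show (n : ℤ) - k - 1 = (m : ℤ) by omega, cb_nat, choose_two_mul]
  have h2 : rf (2 * (n : ℤ) - k - 1) = 1 / ((2 * n - k - 1)! : ℚ) := by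
    rw [show 2 * (n : ℤ) - k - 1 = ((2 * n - k - 1 : ℕ) : ℤ) by omega, rf_nat]
  have ht' : (16 : ℚ) ^ (k + 1) * (((2 * m)! : ℚ) * ((k + 1)! : ℚ) * ((4 * n)! : ℚ))
      = 128 * ((m ! : ℚ) * (m ! : ℚ) * ((2 * k + 2)! : ℚ) * ((2 * n - k - 1)! : ℚ) *
        ((2 * n + 1) * ((2 * n)! : ℚ))) * t := by
    rw [Nat.factorial_succ (2 * n)] at ht
    exact_mod_cast ht
  have z1 : (m ! : ℚ) ≠ 0 := by positivity
  have z2 : (n ! : ℚ) ≠ 0 := by positivity
  have z3 : ((2 * k + 2)! : ℚ) ≠ 0 := by positivity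
  have z4 : ((2 * n - k - 1)! : ℚ) ≠ 0 := by positivity
  rw [pow_succ] at ht'
  unfold T
  rw [h1, h2, choose_two_mul]
  field_simp
  linear_combination ((n : ℚ) / 16) * ht'

theorem R_zero (n : ℕ) : R n 0
    = - ((20 * n + 3) * (((4 * n)! : ℚ) / (n ! : ℚ) ^ 4)) := by
  have h8 : cb ((n : ℤ) - (0 : ℕ)) = ((2 * n)! : ℚ) / ((n ! : ℚ) * (n ! : ℚ)) := by
    rw [← choose_two_mul, ← cb_nat]; simp
  have h2 : rf (2 * (n : ℤ) - (0 : ℕ) + 1) = 1 / ((2 * n + 1) * ((2 * n)! : ℚ)) := by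
    rw [show 2 * (n : ℤ) - (0 : ℕ) + 1 = ((2 * n + 1 : ℕ) : ℤ) by push_cast; ring, rf_nat,
      Nat.factorial_succ]
    push_cast; rfl
  unfold R
  rw [h8, h2]
  have z2 : (n ! : ℚ) ≠ 0 := by positivity
  have z3 : ((2 * n)! : ℚ) ≠ 0 := by positivity
  have z4 : (2 * (n : ℚ) + 1) ≠ 0 := by positivity
  simp only [Nat.cast_zero, mul_zero, pow_zero, Nat.factorial_zero, Nat.cast_one]
  field_simp
  ring

theorem R_top (n : ℕ) : R n (n + 1) = 0 := by
  unfold R
  rw [cb_neg (by push_cast; omega : (n : ℤ) - ((n + 1 : ℕ) : ℤ) < 0)]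
  ring

theorem T_top (n : ℕ) : T n n = 0 := by
  unfold T
  rw [cb_neg (by omega : (n : ℤ) - n - 1 < 0)]
  ring

/-- the multinomial coefficient `(4k)!/(k!)^4` -/
noncomputable def M (k : ℕ) : ℚ := ((4 * k)! : ℚ) / (k ! : ℚ) ^ 4

/-- the sum `S_n` -/
noncomputable def S (n : ℕ) : ℚ := ∑ k ∈ range n, (20 * (k : ℚ) + 3) * M k * (-1024) ^ (n - 1 - k)

/-- the numbers `a_n` -/
noncomputable def a (n : ℕ) : ℚ := S n / (2 * n * (2 * n + 1) * ((2 * n).choose n : ℚ))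

theorem M_pos (n : ℕ) : 0 < M n := by unfold M; positivity

theorem M_succ (n : ℕ) : M (n + 1) * ((n : ℚ) + 1) ^ 4
    = M n * ((4 * n + 4) * (4 * n + 3) * (4 * n + 2) * (4 * n + 1)) := by
  unfold M
  rw [show 4 * (n + 1) = 4 * n + 1 + 1 + 1 + 1 by ring, Nat.factorial_succ, Nat.factorial_succ,
      Nat.factorial_succ, Nat.factorial_succ, Nat.factorial_succ]
  have z2 : (n ! : ℚ) ≠ 0 := by positivity
  have z4 : ((n : ℚ) + 1) ≠ 0 := by positivity
  push_cast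
  field_simp
  ring

theorem M_le (n : ℕ) : M (n + 1) ≤ 256 * M n := by
  have h := M_succ n
  have hp : (0 : ℚ) < ((n : ℚ) + 1) ^ 4 := by positivity
  have h3 : ((4 * (n : ℚ) + 4) * (4 * n + 3) * (4 * n + 2) * (4 * n + 1)) ≤ 256 * ((n : ℚ) + 1) ^ 4 := by
    have hn : (0 : ℚ) ≤ n := by positivity
    nlinarith [pow_nonneg hn 2, pow_nonneg hn 3]
  have h4 : M (n + 1) * ((n : ℚ) + 1) ^ 4 ≤ (256 * M n) * ((n : ℚ) + 1) ^ 4 := by
    rw [h]
    calc M n * ((4 * n + 4) * (4 * n + 3) * (4 * n + 2) * (4 * n + 1))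
        ≤ M n * (256 * ((n : ℚ) + 1) ^ 4) := mul_le_mul_of_nonneg_left h3 (M_pos n).le
      _ = _ := by ring
  exact le_of_mul_le_mul_right h4 hp

theorem s_dec (n : ℕ) : 2 * ((20 * ((n + 1 : ℕ) : ℚ) + 3) * M (n + 1)) ≤ 1024 * ((20 * n + 3) * M n) := by
  rcases Nat.eq_zero_or_pos n with h | h
  · subst h
    have h1 := M_succ 0
    have h2 := M_pos 0
    norm_num at h1 ⊢
    linarith
  · have h1 := M_le n
    have h2 := M_pos n
    have hn : (1 : ℚ) ≤ n := by exact_mod_cast h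
    push_cast
    have h3 : (20 * ((n : ℚ) + 1) + 3) * M (n + 1) ≤ (20 * ((n : ℚ) + 1) + 3) * (256 * M n) :=
      mul_le_mul_of_nonneg_left h1 (by positivity)
    nlinarith

/-- Q1: for `n ≥ 2` the number `(-1)^(n-1) a_n` is a positive integer. -/
theorem result (n : ℕ) (hn : 2 ≤ n) : ∃ b : ℕ, 0 < b ∧ (-1) ^ (n - 1) * a n = (b : ℚ) := by
  have hex : ∀ k ∈ range n, ∃ t : ℕ,
      T n k = (2 * (n : ℚ) * (2 * n + 1) * ((2 * n).choose n : ℚ)) * ((-1) ^ k * t) := by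
    intro k hk
    have hk' := Finset.mem_range.mp hk
    obtain ⟨t, ht⟩ := dvd_two n k (n - k - 1) hn (by omega)
    exact ⟨t, T_eq n k (n - k - 1) t (by omega) ht⟩
  choose! t ht using hex
  have hS := wz_sum (-1024) (fun k => (20 * (k : ℚ) + 3) * M k) T R (fun n k _ => wz n k)
    (fun n => by rw [R_zero]; rfl) R_top T_top n
  have hc : (0 : ℚ) < 2 * (n : ℚ) * (2 * n + 1) * ((2 * n).choose n : ℚ) := by
    have h1 : 0 < (2 * n).choose n := Nat.choose_pos (by omega)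
    have h2 : 0 < n := by omega
    positivity
  have ha : a n = ((∑ k ∈ range n, (-1) ^ k * (t k : ℤ) : ℤ) : ℚ) := by
    unfold a S
    rw [hS, div_eq_iff hc.ne', mul_comm]
    push_cast
    rw [Finset.mul_sum]
    exact Finset.sum_congr rfl fun k hk => ht k hk
  have hpos : 0 < (-1) ^ (n - 1) * a n := by
    have h := alt_pos 1024 (by norm_num) (fun k => (20 * (k : ℚ) + 3) * M k)
      (fun k => mul_pos (by positivity) (M_pos k)) s_dec (n - 1)
    have e : n - 1 + 1 = n := by omega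
    rw [e] at h
    unfold a S
    rw [← mul_div_assoc]
    exact div_pos h hc
  rw [ha] at hpos ⊢
  have hz : (0 : ℤ) < (-1) ^ (n - 1) * ∑ k ∈ range n, (-1) ^ k * (t k : ℤ) := by
    exact_mod_cast hpos
  refine ⟨((-1) ^ (n - 1) * ∑ k ∈ range n, (-1) ^ k * (t k : ℤ)).toNat, by omega, ?_⟩
  have h5 : ((((-1) ^ (n - 1) * ∑ k ∈ range n, (-1) ^ k * (t k : ℤ)).toNat : ℤ))
      = (-1) ^ (n - 1) * ∑ k ∈ range n, (-1) ^ k * (t k : ℤ) := Int.toNat_of_nonneg hz.le
  have h6 := congrArg (fun z : ℤ => (z : ℚ)) h5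
  push_cast at h6 ⊢
  exact h6.symm

end Pool.Agent.Results.MP_f65ae4_nt.SignIntegrality
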